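import Pool.Agent.H30.SY.Stm

set_option autoImplicit false

/-!
# Piece CHAIN: symmetry gives concentration
-/

open MeasureTheory ProbabilityTheory Finset Filter
open scoped Topology Pointwise

namespace Pool.Agent.H50.SY

open Q70.Fp Pool.Agent.H30.SY

theorem t_CHAIN (hFAR : S_FAR) (hSUM : S_SUM) : S_CHAIN := by
  intro b hb0 hb1 hD ζ hζ
  -- the trivial case
  rcases le_or_gt (2 * (1 - b)) ζ with hcase | hcase
  · refine ⟨fun _ => 0, 1, fun v hv => ?_⟩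
    have h1 : (1 : ℝ) ≤ dd 0 v := by exact_mod_cast dd_pos hv
    refine measureReal_le_one.trans ?_
    rw [one_mul]
    exact Real.one_le_rpow h1 (by linarith)
  obtain ⟨C1, hC1⟩ := hD (ζ / 2) (by linarith)
  have hs : ∀ v : ℤ × ℤ, 0 ≤ 133 * (dd 0 v : ℝ) ^ (b + ζ / 2) := fun v => by positivity
  have hch : ∀ v : ℤ × ℤ, ∃ c : ℝ, v ≠ 0 →
      nu.real {w | 133 * (dd 0 v : ℝ) ^ (b + ζ / 2) < |TT (pw w) 0 v - c|} ≤
        nu.real {w | 133 * (dd 0 v : ℝ) ^ (b + ζ / 2) <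
          |TT (pw w) 0 v - TT (pw w) ((133:ℤ) • v) ((134:ℤ) • v)|} + 6 * (1 / 2) ^ dd 0 v := by
    intro v
    by_cases hv : v = 0
    · exact ⟨0, fun h => absurd hv h⟩
    · obtain ⟨c, hc⟩ := hFAR v hv _ (hs v)
      exact ⟨c, fun _ => hc⟩
  choose m hm using hch
  have hq : 0 < 2 * (1 - b) - ζ := by linarith
  obtain ⟨C2, hC2, h2⟩ := half_poly _ hq
  have hfin := of_ev (P := fun v => nu.real {w | (dd 0 v : ℝ) ^ (b + ζ) < |TT (pw w) 0 v - m v|})
    (fun v => measureReal_le_one) hq (C := 133 * |C1| + 6 * C2) (by positivity) (by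
    have h3 : Tendsto (fun n : ℕ => (n : ℝ) ^ (ζ / 2)) atTop atTop :=
      (tendsto_rpow_atTop (by linarith)).comp tendsto_natCast_atTop_atTop
    filter_upwards [h3.eventually_ge_atTop 133, eventually_ge_atTop 1] with n hn1 hn2 v hv
    have hn : (1 : ℝ) ≤ n := by exact_mod_cast hn2
    have hn0 : (0 : ℝ) < n := by linarith
    have hv0 : v ≠ 0 := by
      rintro rfl
      rw [show dd 0 0 = 0 by simp [dd]] at hv
      omega
    have h4 := hm v hv0
    have h5 := hSUM v ((dd 0 v : ℝ) ^ (b + ζ / 2)) (by positivity)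
    have h6 := hC1 v hv0
    rw [hv] at h4 h5 h6 ⊢
    have h7 : 133 * (n : ℝ) ^ (b + ζ / 2) ≤ (n : ℝ) ^ (b + ζ) := by
      have e : (n : ℝ) ^ (b + ζ) = (n : ℝ) ^ (ζ / 2) * (n : ℝ) ^ (b + ζ / 2) := by
        rw [← Real.rpow_add hn0]
        congr 1
        ring
      rw [e]
      exact mul_le_mul_of_nonneg_right hn1 (by positivity)
    have h8 : nu.real {w | (n : ℝ) ^ (b + ζ) < |TT (pw w) 0 v - m v|} ≤
        nu.real {w | 133 * (n : ℝ) ^ (b + ζ / 2) < |TT (pw w) 0 v - m v|} :=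
      measureReal_mono fun w hw => lt_of_le_of_lt h7 hw
    have h9 : (n : ℝ) ^ (-(2 * (1 - b)) + ζ / 2) ≤ (n : ℝ) ^ (-(2 * (1 - b) - ζ)) :=
      Real.rpow_le_rpow_of_exponent_le hn (by linarith)
    have h10 : (1 / 2 : ℝ) ^ n ≤ C2 * (n : ℝ) ^ (-(2 * (1 - b) - ζ)) := by
      refine (h2 n).trans (mul_le_mul_of_nonneg_left ?_ hC2.le)
      exact Real.rpow_le_rpow_of_nonpos hn0 (by linarith) (by linarith)
    have h11 : C1 * (n : ℝ) ^ (-(2 * (1 - b)) + ζ / 2) ≤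
        |C1| * (n : ℝ) ^ (-(2 * (1 - b) - ζ)) :=
      mul_le_mul (le_abs_self _) h9 (by positivity) (abs_nonneg _)
    calc nu.real {w | (n : ℝ) ^ (b + ζ) < |TT (pw w) 0 v - m v|}
        ≤ 133 * (|C1| * (n : ℝ) ^ (-(2 * (1 - b) - ζ))) +
          6 * (C2 * (n : ℝ) ^ (-(2 * (1 - b) - ζ))) := by linarith
      _ = _ := by ring)
  obtain ⟨C', -, hC'⟩ := hfin
  refine ⟨m, C', fun v hv => ?_⟩
  have h := hC' v hv
  rw [show -(2 * (1 - b)) + ζ = -(2 * (1 - b) - ζ) by ring]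
  exact h

end Pool.Agent.H50.SY
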