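import Pool.Agent.H30.SY.Stm6
import Pool.Agent.H50.SY.U1

set_option autoImplicit false

/-!
# Piece R1: nearly symmetric passage times give concentration
-/

open MeasureTheory ProbabilityTheory Finset Filter
open scoped Topology Pointwise

namespace Pool.Agent.H50.SY.R1

open Q70.Fp Pool.Agent.H30.SY Pool.Agent.H50.SY.U1

lemma chainR (hREV : S_REV) {v x : ℤ × ℤ} {K n : ℕ} {s : ℝ} {w : Ed → ℝ}
    (hn : dd 0 x + (K + 2) * dd 0 v ≤ n) (hB : RS w n s) :
    ∀ j : ℕ, j ≤ K → |TT w x (x + v) - TT w (x + (j:ℤ) • v) (x + (j:ℤ) • v + v)| ≤ j * s := by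
  intro j
  induction j with
  | zero => intro _; simp
  | succ j ih =>
    intro hj
    have h1 := ih (by omega)
    obtain ⟨y, hy⟩ : ∃ y, y = x + (j:ℤ) • v := ⟨_, rfl⟩
    have hy2 : x + ((j + 1 : ℕ):ℤ) • v = y + v := by
      rw [hy, Nat.cast_succ, add_smul, one_smul, add_assoc]
    rw [← hy] at h1
    rw [hy2]
    have d1 : dd 0 y ≤ dd 0 x + j * dd 0 v := by
      rw [hy]
      refine (dd_add0 _ _).trans ?_
      rw [dd_zsm]
      simp
    have d2 : dd 0 (y + v) ≤ dd 0 x + j * dd 0 v + dd 0 v := by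
      have := dd_add0 y v
      omega
    have d3 : j * dd 0 v + dd 0 v + dd 0 v ≤ (K + 2) * dd 0 v := by
      have : (j + 2) * dd 0 v ≤ (K + 2) * dd 0 v := Nat.mul_le_mul_right _ (by omega)
      nlinarith
    have b2 : v ∈ ball n 0 := by
      rw [mem_ball]
      omega
    have b3 : y + v ∈ ball n 0 := by
      rw [mem_ball]
      omega
    have k1 := hB (y + v) b3 v b2
    rw [add_sub_cancel_right, hREV w (y + v) y] at k1
    rw [abs_le] at k1 h1 ⊢
    push_cast
    constructor <;> nlinarith [k1.1, k1.2, h1.1, h1.2]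

theorem t_R1 (hREV : S_REV) : S_R1 := by
  intro v x J n s m hd hs hn hmd
  obtain ⟨hlo, hhi⟩ := hmd
  obtain ⟨d, hdd⟩ : ∃ d, d = dd 0 v := ⟨_, rfl⟩
  rw [← hdd] at hd
  obtain ⟨c, hc⟩ : ∃ c : ℕ → ℤ × ℤ, c = fun i => x + ((133 * i : ℕ) : ℤ) • v := ⟨_, rfl⟩
  have hsep : ∀ i ∈ range J, ∀ j ∈ range J, i ≠ j → 2 * (66 * d) < dd (c i) (c j) := by
    intro i _ j _ hij
    rw [hc]
    simp only
    rw [dd_cc, ← hdd]
    have h1 : 133 ≤ (((133 * i : ℕ) : ℤ) - ((133 * j : ℕ) : ℤ)).natAbs := by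
      push_cast
      omega
    have h2 : 133 * d ≤ (((133 * i : ℕ) : ℤ) - ((133 * j : ℕ) : ℤ)).natAbs * d :=
      Nat.mul_le_mul_right _ h1
    omega
  have hdc : ∀ i, dd (c i) (c i + v) = d := by
    intro i
    rw [hdd]
    simp only [dd, Prod.fst_add, Prod.snd_add, Prod.fst_zero, Prod.snd_zero]
    omega
  -- small probability
  have hp8 : ((1:ℝ) / 2) ^ d ≤ 1 / 8 := by
    have h := pow_le_pow_of_le_one (by norm_num : (0:ℝ) ≤ 1 / 2) (by norm_num : (1:ℝ) / 2 ≤ 1) hd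
    refine h.trans (by norm_num)
  have l0 : nu.real {w : Ed → ℝ | TT (pw w) 0 v ≠ TB (pw w) (66 * d) 0 v} ≤ 2 * (1 / 2) ^ d :=
    Pool.Agent.H59.SY.loc 0 v (by rw [hdd])
  have li : ∀ i, nu.real {w : Ed → ℝ | TT (pw w) (c i) (c i + v) ≠ TB (pw w) (66 * d) (c i) (c i + v)} ≤
      2 * (1 / 2) ^ d := fun i => Pool.Agent.H59.SY.loc _ _ (by rw [hdc])
  have p1 : nu.real {w : Ed → ℝ | TB (pw w) (66 * d) 0 v ∈ Set.Ioi m} ≤ 3 / 4 := by
    have hsub : {w : Ed → ℝ | TB (pw w) (66 * d) 0 v ∈ Set.Ioi m} ⊆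
        {w | m < TT (pw w) 0 v} ∪ {w : Ed → ℝ | TT (pw w) 0 v ≠ TB (pw w) (66 * d) 0 v} := by
      intro w hw
      by_cases h : TT (pw w) 0 v = TB (pw w) (66 * d) 0 v
      · left
        show m < TT (pw w) 0 v
        rw [h]
        exact hw
      · exact Or.inr h
    refine (measureReal_mono hsub (measure_ne_top nu _)).trans ((measureReal_union_le _ _).trans ?_)
    linarith
  have p2 : nu.real {w : Ed → ℝ | TB (pw w) (66 * d) 0 v ∈ Set.Iio m} ≤ 3 / 4 := by
    have hsub : {w : Ed → ℝ | TB (pw w) (66 * d) 0 v ∈ Set.Iio m} ⊆ {w | TT (pw w) 0 v < m} := by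
      intro w hw
      have h1 : TT (pw w) 0 v ≤ TB (pw w) (66 * d) 0 v := TT_le_TB (pw_nonneg w) (by omega)
      have h2 : TB (pw w) (66 * d) 0 v < m := hw
      exact lt_of_le_of_lt h1 h2
    refine (measureReal_mono hsub (measure_ne_top nu _)).trans ?_
    linarith
  have i1 := indep_set J d v (measurableSet_Ioi (a := m)) c hsep
  have i2 := indep_set J d v (measurableSet_Iio (a := m)) c hsep
  have q1 : nu.real {w | ∀ i ∈ range J, TB (pw w) (66 * d) (c i) (c i + v) ∈ Set.Ioi m} ≤ (3 / 4) ^ J := by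
    rw [i1]
    exact pow_le_pow_left₀ measureReal_nonneg p1 J
  have q2 : nu.real {w | ∀ i ∈ range J, TB (pw w) (66 * d) (c i) (c i + v) ∈ Set.Iio m} ≤ (3 / 4) ^ J := by
    rw [i2]
    exact pow_le_pow_left₀ measureReal_nonneg p2 J
  have q3 : nu.real (⋃ i ∈ range J, {w : Ed → ℝ | TT (pw w) (c i) (c i + v) ≠
      TB (pw w) (66 * d) (c i) (c i + v)}) ≤ J * (2 * (1 / 2) ^ d) := by
    refine (measureReal_biUnion_finset_le _ _).trans ?_
    refine (Finset.sum_le_sum fun j _ => li j).trans (le_of_eq ?_)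
    rw [Finset.sum_const, Finset.card_range, nsmul_eq_mul]
  have hsub : {w | RS (pw w) n s ∧ 133 * (J:ℝ) * s < |TT (pw w) x (x + v) - m|} ⊆
      {w | ∀ i ∈ range J, TB (pw w) (66 * d) (c i) (c i + v) ∈ Set.Ioi m} ∪
      ({w | ∀ i ∈ range J, TB (pw w) (66 * d) (c i) (c i + v) ∈ Set.Iio m} ∪
      ⋃ i ∈ range J, {w : Ed → ℝ | TT (pw w) (c i) (c i + v) ≠
      TB (pw w) (66 * d) (c i) (c i + v)}) := by
    rintro w ⟨hB, hbig⟩
    have hch : ∀ i ∈ range J, |TT (pw w) x (x + v) - TT (pw w) (c i) (c i + v)| ≤ 133 * (J:ℝ) * s := by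
      intro i hi
      have hi' := Finset.mem_range.1 hi
      have h := chainR (K := 133 * J) hREV hn hB (133 * i) (by omega)
      rw [hc]
      refine h.trans (mul_le_mul_of_nonneg_right ?_ hs)
      push_cast
      have : (i:ℝ) ≤ J := by exact_mod_cast hi'.le
      linarith
    rcases lt_abs.1 hbig with h | h
    · left
      intro i hi
      have h1 := abs_le.1 (hch i hi)
      have h2 : TT (pw w) (c i) (c i + v) ≤ TB (pw w) (66 * d) (c i) (c i + v) :=
        TT_le_TB (pw_nonneg w) (by rw [hdc]; omega)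
      show m < TB (pw w) (66 * d) (c i) (c i + v)
      linarith [h1.2]
    · right
      by_cases hall : ∀ i ∈ range J, TT (pw w) (c i) (c i + v) = TB (pw w) (66 * d) (c i) (c i + v)
      · left
        intro i hi
        have h1 := abs_le.1 (hch i hi)
        show TB (pw w) (66 * d) (c i) (c i + v) < m
        rw [← hall i hi]
        linarith [h1.1]
      · right
        push Not at hall
        obtain ⟨i, hi, hne⟩ := hall
        simp only [Set.mem_iUnion]
        exact ⟨i, hi, hne⟩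
  refine (measureReal_mono hsub (measure_ne_top nu _)).trans ((measureReal_union_le _ _).trans ?_)
  have h5 := measureReal_union_le (μ := nu)
    {w | ∀ i ∈ range J, TB (pw w) (66 * d) (c i) (c i + v) ∈ Set.Iio m}
    (⋃ i ∈ range J, {w : Ed → ℝ | TT (pw w) (c i) (c i + v) ≠ TB (pw w) (66 * d) (c i) (c i + v)})
  have h6 : 0 ≤ (J:ℝ) * (1 / 2) ^ d := by positivity
  rw [← hdd]
  linarith

end Pool.Agent.H50.SY.R1
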