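import Pool.Agent.H30.SY.Stm6
import Pool.Agent.H50.SY.R1

set_option autoImplicit false

/-!
# Piece R3: nearly symmetric passage times bound the upper tail at one point
-/

open MeasureTheory ProbabilityTheory Finset Filter
open scoped Topology Pointwise

namespace Pool.Agent.H50.SY.R3

open Q70.Fp Pool.Agent.H30.SY Pool.Agent.H50.SY.U1 Pool.Agent.H50.SY.R1

/-- the estimate for one `n` -/
lemma one_n (hREV : S_REV) {v : ℤ × ℤ} {J n N : ℕ} {s m r : ℝ} (hv : dd 0 v = n) (hn : 3 ≤ n)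
    (hs : 0 ≤ s) (hN : (133 * J + 2) * n ≤ N) (hr : 266 * (J:ℝ) * s ≤ r)
    (hm : Mdn v m) (hp : 1 / 4 < nu.real {w | m + r < TT (pw w) 0 v}) :
    nu.real {w : Ed → ℝ | RS (pw w) N s} ≤ 2 * (3 / 4) ^ J + J * (2 * (1 / 2) ^ n) := by
  obtain ⟨hlo, hhi⟩ := hm
  obtain ⟨c, hc⟩ : ∃ c : ℕ → ℤ × ℤ, c = fun i => 0 + ((133 * i : ℕ) : ℤ) • v := ⟨_, rfl⟩
  have hsep : ∀ i ∈ range J, ∀ j ∈ range J, i ≠ j → 2 * (66 * n) < dd (c i) (c j) := by
    intro i _ j _ hij
    rw [hc]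
    simp only
    rw [dd_cc, hv]
    have h1 : 133 ≤ (((133 * i : ℕ) : ℤ) - ((133 * j : ℕ) : ℤ)).natAbs := by
      push_cast
      omega
    have h2 : 133 * n ≤ (((133 * i : ℕ) : ℤ) - ((133 * j : ℕ) : ℤ)).natAbs * n :=
      Nat.mul_le_mul_right _ h1
    omega
  have hdc : ∀ i, dd (c i) (c i + v) = n := by
    intro i
    rw [← hv]
    simp only [dd, Prod.fst_add, Prod.snd_add, Prod.fst_zero, Prod.snd_zero]
    omega
  have hp8 : ((1:ℝ) / 2) ^ n ≤ 1 / 8 := by
    have h := pow_le_pow_of_le_one (by norm_num : (0:ℝ) ≤ 1 / 2) (by norm_num : (1:ℝ) / 2 ≤ 1) hn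
    refine h.trans (by norm_num)
  have l0 : nu.real {w : Ed → ℝ | TT (pw w) 0 v ≠ TB (pw w) (66 * n) 0 v} ≤ 2 * (1 / 2) ^ n :=
    Pool.Agent.H59.SY.loc 0 v (by rw [hv])
  have li : ∀ i, nu.real {w : Ed → ℝ | TT (pw w) (c i) (c i + v) ≠ TB (pw w) (66 * n) (c i) (c i + v)} ≤
      2 * (1 / 2) ^ n := fun i => Pool.Agent.H59.SY.loc _ _ (by rw [hdc])
  have p1 : nu.real {w : Ed → ℝ | TB (pw w) (66 * n) 0 v ∈ Set.Ioi m} ≤ 3 / 4 := by
    have hsub : {w : Ed → ℝ | TB (pw w) (66 * n) 0 v ∈ Set.Ioi m} ⊆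
        {w | m < TT (pw w) 0 v} ∪ {w : Ed → ℝ | TT (pw w) 0 v ≠ TB (pw w) (66 * n) 0 v} := by
      intro w hw
      by_cases h : TT (pw w) 0 v = TB (pw w) (66 * n) 0 v
      · left
        show m < TT (pw w) 0 v
        rw [h]
        exact hw
      · exact Or.inr h
    refine (measureReal_mono hsub (measure_ne_top nu _)).trans ((measureReal_union_le _ _).trans ?_)
    linarith
  have p2 : nu.real {w : Ed → ℝ | TB (pw w) (66 * n) 0 v ∈ Set.Iic (m + r)} ≤ 3 / 4 := by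
    have hsub : {w : Ed → ℝ | m + r < TT (pw w) 0 v} ⊆
        {w : Ed → ℝ | TB (pw w) (66 * n) 0 v ∈ Set.Iic (m + r)}ᶜ := by
      intro w hw hw2
      have h1 : TT (pw w) 0 v ≤ TB (pw w) (66 * n) 0 v := TT_le_TB (pw_nonneg w) (by omega)
      have h2 : TB (pw w) (66 * n) 0 v ≤ m + r := hw2
      have h3 : m + r < TT (pw w) 0 v := hw
      linarith
    have h1 := measureReal_mono hsub (measure_ne_top nu _)
    have hme : MeasurableSet {w : Ed → ℝ | TB (pw w) (66 * n) 0 v ∈ Set.Iic (m + r)} :=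
      (measurable_TB _ _ _) measurableSet_Iic
    rw [probReal_compl_eq_one_sub hme] at h1
    linarith
  have i1 := indep_set J n v (measurableSet_Ioi (a := m)) c hsep
  have i2 := indep_set J n v (measurableSet_Iic (a := m + r)) c hsep
  have q1 : nu.real {w | ∀ i ∈ range J, TB (pw w) (66 * n) (c i) (c i + v) ∈ Set.Ioi m} ≤ (3 / 4) ^ J := by
    rw [i1]
    exact pow_le_pow_left₀ measureReal_nonneg p1 J
  have q2 : nu.real {w | ∀ i ∈ range J, TB (pw w) (66 * n) (c i) (c i + v) ∈ Set.Iic (m + r)} ≤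
      (3 / 4) ^ J := by
    rw [i2]
    exact pow_le_pow_left₀ measureReal_nonneg p2 J
  have q3 : nu.real (⋃ i ∈ range J, {w : Ed → ℝ | TT (pw w) (c i) (c i + v) ≠
      TB (pw w) (66 * n) (c i) (c i + v)}) ≤ J * (2 * (1 / 2) ^ n) := by
    refine (measureReal_biUnion_finset_le _ _).trans ?_
    refine (Finset.sum_le_sum fun j _ => li j).trans (le_of_eq ?_)
    rw [Finset.sum_const, Finset.card_range, nsmul_eq_mul]
  have hsub : {w : Ed → ℝ | RS (pw w) N s} ⊆
      {w | ∀ i ∈ range J, TB (pw w) (66 * n) (c i) (c i + v) ∈ Set.Ioi m} ∪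
      ({w | ∀ i ∈ range J, TB (pw w) (66 * n) (c i) (c i + v) ∈ Set.Iic (m + r)} ∪
      ⋃ i ∈ range J, {w : Ed → ℝ | TT (pw w) (c i) (c i + v) ≠
      TB (pw w) (66 * n) (c i) (c i + v)}) := by
    intro w hB
    have hB' : RS (pw w) N s := hB
    by_cases hall : ∀ i ∈ range J, TT (pw w) (c i) (c i + v) = TB (pw w) (66 * n) (c i) (c i + v)
    · have hch : ∀ i ∈ range J, |TT (pw w) 0 (0 + v) - TT (pw w) (c i) (c i + v)| ≤ 133 * (J:ℝ) * s := by
        intro i hi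
        have hi' := Finset.mem_range.1 hi
        have hN2 : dd 0 (0 : ℤ × ℤ) + (133 * J + 2) * dd 0 v ≤ N := by
          rw [dd_self, hv]
          omega
        have h := chainR (K := 133 * J) hREV hN2 hB' (133 * i) (by omega)
        rw [hc]
        refine h.trans (mul_le_mul_of_nonneg_right ?_ hs)
        push_cast
        have : (i:ℝ) ≤ J := by exact_mod_cast hi'.le
        linarith
      by_cases hgt : ∀ i ∈ range J, m < TB (pw w) (66 * n) (c i) (c i + v)
      · exact Or.inl hgt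
      · right
        left
        push Not at hgt
        obtain ⟨i, hi, hle⟩ := hgt
        intro j hj
        have h1 := abs_le.1 (hch i hi)
        have h2 := abs_le.1 (hch j hj)
        rw [hall i hi] at h1
        rw [hall j hj] at h2
        show TB (pw w) (66 * n) (c j) (c j + v) ≤ m + r
        linarith [h1.1, h1.2, h2.1, h2.2]
    · right
      right
      push Not at hall
      obtain ⟨i, hi, hne⟩ := hall
      simp only [Set.mem_iUnion]
      exact ⟨i, hi, hne⟩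
  refine (measureReal_mono hsub (measure_ne_top nu _)).trans ((measureReal_union_le _ _).trans ?_)
  have h5 := measureReal_union_le (μ := nu)
    {w | ∀ i ∈ range J, TB (pw w) (66 * n) (c i) (c i + v) ∈ Set.Iic (m + r)}
    (⋃ i ∈ range J, {w : Ed → ℝ | TT (pw w) (c i) (c i + v) ≠ TB (pw w) (66 * n) (c i) (c i + v)})
  linarith

theorem t_R3 (hREV : S_REV) : S_R3 := by
  intro b hb hb1 hR ζ hζ
  obtain ⟨c, hc, hev⟩ := hR (ζ / 2) (by positivity)
  obtain ⟨J, hJ⟩ : ∃ J : ℕ, (3 / 4 : ℝ) ^ J < c / 8 :=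
    exists_pow_lt_of_lt_one (by positivity) (by norm_num)
  obtain ⟨L, hL⟩ : ∃ L : ℕ, L = 133 * J + 3 := ⟨_, rfl⟩
  have tN : Tendsto (fun n : ℕ => L * n) atTop atTop := by
    refine tendsto_atTop_mono (fun n => ?_) tendsto_id
    show n ≤ L * n
    exact Nat.le_mul_of_pos_left n (by omega)
  have t1 : Tendsto (fun n : ℕ => (J:ℝ) * (2 * (1 / 2) ^ n)) atTop (𝓝 0) := by
    have h := tendsto_pow_atTop_nhds_zero_of_lt_one (by norm_num : (0:ℝ) ≤ 1 / 2)
      (by norm_num : (1:ℝ) / 2 < 1)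
    have h2 := (h.const_mul 2).const_mul (J:ℝ)
    simpa using h2
  have tζ : Tendsto (fun n : ℕ => (n:ℝ) ^ (ζ / 2)) atTop atTop :=
    (tendsto_rpow_atTop (by positivity)).comp tendsto_natCast_atTop_atTop
  filter_upwards [tN.eventually hev, t1.eventually (gt_mem_nhds (by positivity : (0:ℝ) < c / 4)),
    tζ.eventually_ge_atTop (266 * (J:ℝ) * (L:ℝ) ^ (b + ζ / 2)), eventually_ge_atTop 3] with n h1 h2 h3 h4
  intro v hv m hm
  by_contra hcon
  push Not at hcon
  have hn0 : (0:ℝ) < n := by exact_mod_cast (by omega : 0 < n)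
  have hr : 266 * (J:ℝ) * (((L * n : ℕ) : ℝ) ^ (b + ζ / 2)) ≤ (n:ℝ) ^ (b + ζ) := by
    have e : (n:ℝ) ^ (b + ζ) = (n:ℝ) ^ (ζ / 2) * (n:ℝ) ^ (b + ζ / 2) := by
      rw [← Real.rpow_add hn0]
      ring_nf
    rw [Nat.cast_mul, Real.mul_rpow (Nat.cast_nonneg _) hn0.le, e, ← mul_assoc]
    exact mul_le_mul_of_nonneg_right h3 (Real.rpow_nonneg hn0.le _)
  have key := one_n hREV (N := L * n) hv h4 (Real.rpow_nonneg (Nat.cast_nonneg (L * n)) (b + ζ / 2))
    (by rw [hL]; exact Nat.mul_le_mul_right _ (by omega)) hr hm hcon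
  have h5 := h1.trans key
  linarith

end Pool.Agent.H50.SY.R3
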