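import Pool.Agent.H30.SY.Stm2
import Pool.Agent.H42.SY.FUB
import Pool.Agent.H59.SY.FAR

set_option autoImplicit false

/-!
# Piece SETC: a chain of translates for sets
-/

open MeasureTheory ProbabilityTheory Finset Filter
open scoped Topology Pointwise

namespace Pool.Agent.H50.SY

open Q70.Fp Pool.Agent.H30.SY

theorem shift_eq (hREV : S_REV) (v : ℤ × ℤ) (j : ℕ) {P Q : Set ℝ} (hP : MeasurableSet P)
    (hQ : MeasurableSet Q) :
    nu.real {w | TT (pw w) ((j : ℤ) • v) (((j : ℤ) + 1) • v) ∈ P ∧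
      TT (pw w) (((j : ℤ) + 1) • v) (((j : ℤ) + 2) • v) ∈ Q} =
      nu.real {w | TT (pw w) 0 (-v) ∈ P ∧ TT (pw w) 0 v ∈ Q} := by
  set c : ℤ × ℤ := ((j : ℤ) + 1) • v with hc
  have hm : Measurable (sh c) := measurable_pi_lambda _ fun e => measurable_pi_apply _
  have hE : MeasurableSet {w : Ed → ℝ | TT (pw w) 0 (-v) ∈ P ∧ TT (pw w) 0 v ∈ Q} :=
    ((measurable_TT 0 (-v)) hP).inter ((measurable_TT 0 v) hQ)
  have e1 := map_measureReal_apply (μ := nu) hm hE
  rw [map_sh] at e1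
  rw [e1]
  congr 1
  ext w
  have h1 : TT (pw w) c (((j : ℤ) + 2) • v) = TT (pw w) (0 + c) (v + c) := by
    rw [hc, zero_add]
    congr 1
    rw [show (j : ℤ) + 2 = ((j : ℤ) + 1) + 1 by ring, add_smul ((j : ℤ) + 1) 1 v, one_smul, add_comm]
  have h2 : TT (pw w) ((j : ℤ) • v) c = TT (pw w) (0 + c) (-v + c) := by
    have h3 : -v + c = (j : ℤ) • v := by
      rw [hc, add_smul, one_smul]
      abel
    rw [h3, zero_add, hREV]
  show (TT (pw w) ((j : ℤ) • v) c ∈ P ∧ TT (pw w) c (((j : ℤ) + 2) • v) ∈ Q) ↔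
    (TT (pw (sh c w)) 0 (-v) ∈ P ∧ TT (pw (sh c w)) 0 v ∈ Q)
  rw [TT_sh, TT_sh, h1, h2]

theorem shift_one (v : ℤ × ℤ) {P : Set ℝ} (hP : MeasurableSet P) :
    nu.real {w | TT (pw w) ((133:ℤ) • v) ((134:ℤ) • v) ∈ P} = nu.real {w | TT (pw w) 0 v ∈ P} := by
  set c : ℤ × ℤ := (133:ℤ) • v with hc
  have hm : Measurable (sh c) := measurable_pi_lambda _ fun e => measurable_pi_apply _
  have hE : MeasurableSet {w : Ed → ℝ | TT (pw w) 0 v ∈ P} := (measurable_TT 0 v) hP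
  have e1 := map_measureReal_apply (μ := nu) hm hE
  rw [map_sh] at e1
  rw [e1]
  congr 1
  ext w
  have h1 : TT (pw w) c ((134:ℤ) • v) = TT (pw w) (0 + c) (v + c) := by
    rw [hc, zero_add]
    congr 1
    rw [show (134 : ℤ) = 133 + 1 by norm_num, add_smul (133:ℤ) 1 v, one_smul, add_comm]
  show TT (pw w) c ((134:ℤ) • v) ∈ P ↔ TT (pw (sh c w)) 0 v ∈ P
  rw [TT_sh, h1]

theorem t_SETC (hREV : S_REV) : S_SETC := by
  intro v hv A hA δ hδ hhalf
  obtain ⟨n, hn⟩ : ∃ n, n = dd 0 v := ⟨_, rfl⟩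
  have hn1 : 1 ≤ n := by
    rcases Nat.eq_zero_or_pos n with h | h
    · exact absurd (dd_eq_zero (by rw [← hn]; exact h)).symm hv
    · exact h
  set a : ℕ → (Ed → ℝ) → ℝ := fun j w => TT (pw w) ((j : ℤ) • v) (((j : ℤ) + 1) • v) with ha
  have a0 : ∀ w, a 0 w = TT (pw w) 0 v := fun w => by
    rw [ha]
    simp
  have a133 : ∀ w, a 133 w = TT (pw w) ((133 : ℤ) • v) ((134 : ℤ) • v) := fun w => by
    rw [ha]
    norm_num
  -- the chain
  have hstep : ∀ j < 133, nu.real {w | a j w ∈ A j ∧ a (j + 1) w ∈ (A (j + 1))ᶜ} ≤ δ := by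
    intro j hj
    have h := shift_eq hREV v j (hA j) (hA (j + 1)).compl
    have e : {w : Ed → ℝ | a j w ∈ A j ∧ a (j + 1) w ∈ (A (j + 1))ᶜ} =
        {w | TT (pw w) ((j : ℤ) • v) (((j : ℤ) + 1) • v) ∈ A j ∧
          TT (pw w) (((j : ℤ) + 1) • v) (((j : ℤ) + 2) • v) ∈ (A (j + 1))ᶜ} := by
      ext w
      have e2 : a (j + 1) w = TT (pw w) (((j : ℤ) + 1) • v) (((j : ℤ) + 2) • v) := by
        rw [ha]
        simp only
        congr 2
      show (a j w ∈ A j ∧ a (j + 1) w ∈ (A (j + 1))ᶜ) ↔ _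
      rw [e2]
      rfl
    rw [e, h]
    exact hδ j hj
  have hsub : {w : Ed → ℝ | a 0 w ∈ A 0} ⊆ {w | a 0 w ∈ A 0 ∧ a 133 w ∈ A 133} ∪
      ⋃ j ∈ range 133, {w | a j w ∈ A j ∧ a (j + 1) w ∈ (A (j + 1))ᶜ} := by
    intro w hw
    by_contra hcon
    simp only [Set.mem_union, Set.mem_iUnion, not_or, not_exists] at hcon
    have h1 : ∀ j, j ≤ 133 → a j w ∈ A j := by
      intro j
      induction j with
      | zero => exact fun _ => hw
      | succ j ih =>
        intro hj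
        by_contra hnot
        exact hcon.2 j (Finset.mem_range.2 (by omega)) ⟨ih (by omega), hnot⟩
    exact hcon.1 ⟨hw, h1 133 le_rfl⟩
  have hchain : nu.real {w | a 0 w ∈ A 0} ≤ nu.real {w | a 0 w ∈ A 0 ∧ a 133 w ∈ A 133} + 133 * δ := by
    refine (measureReal_mono hsub (measure_ne_top nu _)).trans ((measureReal_union_le _ _).trans ?_)
    refine add_le_add le_rfl ((measureReal_biUnion_finset_le _ _).trans ?_)
    refine (Finset.sum_le_sum fun j hj => hstep j (Finset.mem_range.1 hj)).trans (le_of_eq ?_)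
    rw [Finset.sum_const, Finset.card_range, nsmul_eq_mul]
    norm_num
  -- independence
  obtain ⟨X, hX⟩ : ∃ X : (Ed → ℝ) → ℝ, X = fun w => TB (pw w) (66 * n) 0 v := ⟨_, rfl⟩
  obtain ⟨Y, hY⟩ : ∃ Y : (Ed → ℝ) → ℝ, Y = fun w => TB (pw w) (66 * n) ((133:ℤ) • v) ((134:ℤ) • v) :=
    ⟨_, rfl⟩
  have hXm : Measurable X := by rw [hX]; exact measurable_TB _ _ _
  have hYm : Measurable Y := by rw [hY]; exact measurable_TB _ _ _
  have hdisj : Disjoint (be (66 * n) 0) (be (66 * n) ((133:ℤ) • v)) :=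
    be_disj (by rw [Pool.Agent.H59.SY.dd_far, ← hn]; omega)
  have hind : IndepFun X Y nu := Pool.Agent.H42.SY.indep_disj _ _ hdisj hXm hYm
    (fun w w' h => by rw [hX]; exact TB_dep h) (fun w w' h => by rw [hY]; exact TB_dep h)
  have hprod : nu.real {w | X w ∈ A 0 ∧ Y w ∈ A 133} =
      nu.real {w | X w ∈ A 0} * nu.real {w | Y w ∈ A 133} := by
    have h := hind.measure_inter_preimage_eq_mul (A 0) (A 133) (hA 0) (hA 133)
    have h2 := congrArg ENNReal.toReal h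
    rw [ENNReal.toReal_mul] at h2
    exact h2
  have l1 : nu.real {w : Ed → ℝ | a 0 w ≠ X w} ≤ 2 * (1 / 2) ^ n := by
    simp_rw [a0]
    rw [hX]
    exact Pool.Agent.H59.SY.loc 0 v (by rw [hn])
  have l2 : nu.real {w : Ed → ℝ | a 133 w ≠ Y w} ≤ 2 * (1 / 2) ^ n := by
    simp_rw [a133]
    rw [hY]
    exact Pool.Agent.H59.SY.loc _ _ (by rw [Pool.Agent.H59.SY.dd_smul, hn])
  have s1 : nu.real {w | a 0 w ∈ A 0 ∧ a 133 w ∈ A 133} ≤
      nu.real {w | X w ∈ A 0 ∧ Y w ∈ A 133} + (2 * (1 / 2) ^ n + 2 * (1 / 2) ^ n) := by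
    have hs : {w : Ed → ℝ | a 0 w ∈ A 0 ∧ a 133 w ∈ A 133} ⊆ {w | X w ∈ A 0 ∧ Y w ∈ A 133} ∪
        ({w : Ed → ℝ | a 0 w ≠ X w} ∪ {w : Ed → ℝ | a 133 w ≠ Y w}) := by
      rintro w ⟨h1, h2⟩
      by_cases h : a 0 w = X w
      · by_cases h' : a 133 w = Y w
        · left
          exact ⟨by rw [← h]; exact h1, by rw [← h']; exact h2⟩
        · exact Or.inr (Or.inr h')
      · exact Or.inr (Or.inl h)
    refine (measureReal_mono hs (measure_ne_top nu _)).trans ((measureReal_union_le _ _).trans ?_)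
    exact add_le_add le_rfl ((measureReal_union_le _ _).trans (add_le_add l1 l2))
  have s2 : nu.real {w | X w ∈ A 0} ≤ nu.real {w | a 0 w ∈ A 0} + 2 * (1 / 2) ^ n := by
    have hs : {w : Ed → ℝ | X w ∈ A 0} ⊆ {w | a 0 w ∈ A 0} ∪ {w : Ed → ℝ | a 0 w ≠ X w} := by
      intro w h1
      by_cases h : a 0 w = X w
      · left
        show a 0 w ∈ A 0
        rw [h]
        exact h1
      · exact Or.inr h
    exact (measureReal_mono hs (measure_ne_top nu _)).trans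
      ((measureReal_union_le _ _).trans (add_le_add le_rfl l1))
  have s3 : nu.real {w | Y w ∈ A 133} ≤ 1 / 2 + 2 * (1 / 2) ^ n := by
    have hs : {w : Ed → ℝ | Y w ∈ A 133} ⊆
        {w | TT (pw w) ((133:ℤ) • v) ((134:ℤ) • v) ∈ A 133} ∪ {w : Ed → ℝ | a 133 w ≠ Y w} := by
      intro w h1
      by_cases h : a 133 w = Y w
      · left
        show TT (pw w) ((133:ℤ) • v) ((134:ℤ) • v) ∈ A 133
        rw [← a133, h]
        exact h1
      · exact Or.inr h
    refine (measureReal_mono hs (measure_ne_top nu _)).trans ((measureReal_union_le _ _).trans ?_)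
    rw [shift_one v (hA 133)]
    exact add_le_add hhalf l2
  have hx1 : nu.real {w | X w ∈ A 0} ≤ 1 := measureReal_le_one
  have hx0 : 0 ≤ nu.real {w | X w ∈ A 0} := measureReal_nonneg
  have hp : (0 : ℝ) < (1 / 2) ^ n := by positivity
  have s4 : nu.real {w | X w ∈ A 0} * nu.real {w | Y w ∈ A 133} ≤
      nu.real {w | X w ∈ A 0} * (1 / 2) + 2 * (1 / 2) ^ n := by
    calc nu.real {w | X w ∈ A 0} * nu.real {w | Y w ∈ A 133} ≤
          nu.real {w | X w ∈ A 0} * (1 / 2 + 2 * (1 / 2) ^ n) := mul_le_mul_of_nonneg_left s3 hx0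
      _ = nu.real {w | X w ∈ A 0} * (1 / 2) + nu.real {w | X w ∈ A 0} * (2 * (1 / 2) ^ n) := by ring
      _ ≤ _ := by
        refine add_le_add le_rfl ?_
        calc nu.real {w | X w ∈ A 0} * (2 * (1 / 2) ^ n) ≤ 1 * (2 * (1 / 2) ^ n) :=
              mul_le_mul_of_nonneg_right hx1 (by positivity)
          _ = _ := one_mul _
  have hfin : nu.real {w | TT (pw w) 0 v ∈ A 0} = nu.real {w | a 0 w ∈ A 0} := by
    simp_rw [a0]
  rw [hfin, ← hn]
  rw [hprod] at s1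
  linarith

end Pool.Agent.H50.SY
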