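import Pool.Agent.H30.SY.Stm2

set_option autoImplicit false

/-!
# Piece SYM2: symmetric clusters give concentration
-/

open MeasureTheory ProbabilityTheory Finset Filter
open scoped Topology Pointwise

namespace Pool.Agent.H50.SY

open Q70.Fp Pool.Agent.H30.SY

/-- one vertex: both tails -/
theorem tails (hSETC : S_SETC) (hONE : S_ONE) {v : ℤ × ℤ} (hv : v ≠ 0) {c ρ δ : ℝ} {R : ℕ} (hR : 0 < R)
    (hρ : ∀ t : ℝ, c - 402 * (R : ℝ) ≤ t → t ≤ c + 402 * (R : ℝ) → ∃ r : ℝ, r ≤ R ∧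
      nu.real {w : Ed → ℝ | SB (pw w) t r} ≤ ρ)
    (hδ : ρ + (2 * (R:ℝ) + 1) ^ 2 * (1 / 2) ^ R ≤ δ)
    (h1 : nu.real {w | TT (pw w) 0 v < c} ≤ 1 / 2) (h2 : nu.real {w | c < TT (pw w) 0 v} ≤ 1 / 2) :
    nu.real {w | 402 * (R : ℝ) < |TT (pw w) 0 v - c|} ≤ 2 * (266 * δ + 18 * (1 / 2) ^ dd 0 v) := by
  have hR' : (0 : ℝ) < R := by exact_mod_cast hR
  have hi : ∀ i : ℕ, i < 133 → (i : ℝ) ≤ 132 := fun i h => by
    have : i ≤ 132 := by omega
    exact_mod_cast this
  -- lower side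
  have low : nu.real {w | TT (pw w) 0 v ∈ Set.Iic (c - (134 - ((0 : ℕ) : ℝ)) * (3 * R))} ≤
      266 * δ + 18 * (1 / 2) ^ dd 0 v := by
    refine hSETC v hv (fun i => Set.Iic (c - (134 - (i : ℝ)) * (3 * R))) (fun i => measurableSet_Iic) δ
      (fun i h => ?_) ?_
    · have h3 := hi i h
      have h3' : (0 : ℝ) ≤ i := Nat.cast_nonneg i
      obtain ⟨r, hr, hr2⟩ := hρ (c - (134 - (i : ℝ)) * (3 * R)) (by nlinarith) (by nlinarith)
      refine le_trans ?_ ((hONE v (c - (134 - (i : ℝ)) * (3 * R)) r R hr).trans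
        ((add_le_add hr2 le_rfl).trans hδ))
      refine measureReal_mono fun w hw => ?_
      obtain ⟨h4, h5⟩ := hw
      simp only [Set.mem_Iic, not_le] at h4 h5
      refine ⟨h4, lt_of_le_of_lt (le_of_eq ?_) h5⟩
      push_cast
      ring
    · refine le_trans (measureReal_mono fun w hw => ?_) h1
      simp only [Set.mem_ofPred_eq, Set.mem_Iic] at hw ⊢
      push_cast at hw
      linarith
  -- upper side
  have upp : nu.real {w | TT (pw w) 0 v ∈ Set.Ioi (c + (134 - ((0 : ℕ) : ℝ)) * (3 * R))} ≤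
      266 * δ + 18 * (1 / 2) ^ dd 0 v := by
    refine hSETC v hv (fun i => Set.Ioi (c + (134 - (i : ℝ)) * (3 * R))) (fun i => measurableSet_Ioi) δ
      (fun i h => ?_) ?_
    · have h3 := hi i h
      have h3' : (0 : ℝ) ≤ i := Nat.cast_nonneg i
      obtain ⟨r, hr, hr2⟩ := hρ (c + (134 - ((i : ℝ) + 1)) * (3 * R)) (by nlinarith) (by nlinarith)
      refine le_trans ?_ ((hONE (-v) (c + (134 - ((i : ℝ) + 1)) * (3 * R)) r R hr).trans
        ((add_le_add hr2 le_rfl).trans hδ))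
      refine measureReal_mono fun w hw => ?_
      obtain ⟨h4, h5⟩ := hw
      simp only [Set.mem_Ioi, not_lt] at h4 h5
      rw [neg_neg]
      refine ⟨?_, lt_of_le_of_lt (le_of_eq ?_) h4⟩
      · push_cast at h5
        exact h5
      · ring
    · refine le_trans (measureReal_mono fun w hw => ?_) h2
      simp only [Set.mem_ofPred_eq, Set.mem_Ioi] at hw ⊢
      push_cast at hw
      linarith
  have hun : {w : Ed → ℝ | 402 * (R : ℝ) < |TT (pw w) 0 v - c|} ⊆
      {w | TT (pw w) 0 v ∈ Set.Iic (c - (134 - ((0 : ℕ) : ℝ)) * (3 * R))} ∪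
        {w | TT (pw w) 0 v ∈ Set.Ioi (c + (134 - ((0 : ℕ) : ℝ)) * (3 * R))} := by
    intro w hw
    simp only [Set.mem_ofPred_eq] at hw
    simp only [Set.mem_union, Set.mem_ofPred_eq, Set.mem_Iic, Set.mem_Ioi, Nat.cast_zero, sub_zero]
    rcases lt_abs.1 hw with h | h
    · right
      linarith
    · left
      linarith
  calc nu.real {w | 402 * (R : ℝ) < |TT (pw w) 0 v - c|} ≤ _ := measureReal_mono hun
    _ ≤ _ := measureReal_union_le _ _
    _ ≤ _ := by linarith

/-- `(2R+1)² / 2^R` is smaller than every power -/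
theorem small (s q : ℝ) (hs : 0 < s) (hq : 0 < q) : ∃ C : ℝ, 0 < C ∧ ∀ (n R : ℕ), 1 ≤ n → (n : ℝ) ^ s ≤ R →
    (2 * (R:ℝ) + 1) ^ 2 * (1 / 2) ^ R ≤ C * (n : ℝ) ^ (-q) := by
  obtain ⟨C, hC, h⟩ := half_poly (q / s + 2) (by positivity)
  refine ⟨4 * C, by positivity, fun n R hn hR => ?_⟩
  have hn0 : (0 : ℝ) < n := by exact_mod_cast hn
  have h1 : (0 : ℝ) < (R : ℝ) + 1 := by positivity
  have hns : 0 < (n : ℝ) ^ s := by positivity
  calc (2 * (R:ℝ) + 1) ^ 2 * (1 / 2) ^ R ≤ (4 * ((R : ℝ) + 1) ^ 2) * (C * ((R:ℝ) + 1) ^ (-(q / s + 2))) := by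
        refine mul_le_mul ?_ (h R) (by positivity) (by positivity)
        have : (0 : ℝ) ≤ R := Nat.cast_nonneg R
        nlinarith
    _ = 4 * C * ((R:ℝ) + 1) ^ (-(q / s)) := by
        rw [show -(q / s + 2) = -(q / s) + -((2 : ℕ) : ℝ) by push_cast; ring, Real.rpow_add h1,
          Real.rpow_neg h1.le ((2 : ℕ) : ℝ), Real.rpow_natCast]
        field_simp
    _ ≤ 4 * C * (n : ℝ) ^ (-q) := by
        refine mul_le_mul_of_nonneg_left ?_ (by positivity)
        have e : (n : ℝ) ^ (-q) = ((n : ℝ) ^ s) ^ (-(q / s)) := by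
          rw [← Real.rpow_mul hn0.le]
          congr 1
          field_simp
        rw [e]
        refine Real.rpow_le_rpow_of_nonpos hns (by linarith) ?_
        have : 0 < q / s := by positivity
        linarith

theorem t_SYM2 (hSETC : S_SETC) (hONE : S_ONE) (hMED : S_MED) : S_SYM2 := by
  intro b hb0 hb1 hS ζ hζ
  -- the trivial case
  rcases le_or_gt (2 * (1 - b)) ζ with hcase | hcase
  · refine ⟨fun _ => 0, 1, fun v hv => ?_⟩
    have h1 : (1 : ℝ) ≤ dd 0 v := by exact_mod_cast dd_pos hv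
    refine measureReal_le_one.trans ?_
    rw [one_mul]
    exact Real.one_le_rpow h1 (by linarith)
  have hq : 0 < 2 * (1 - b) - ζ := by linarith
  set z : ℝ := min ζ (1 - b) / 2 with hz
  have hz0 : 0 < z := by
    rw [hz]
    exact half_pos (lt_min hζ (by linarith))
  have hz1 : z < ζ := by
    have := min_le_left ζ (1 - b)
    rw [hz]
    linarith
  have hz2 : z < 1 - b := by
    have := min_le_right ζ (1 - b)
    rw [hz]
    linarith
  obtain ⟨C0, hC0⟩ := hS z hz0 hz2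
  obtain ⟨t0, ht0⟩ := eventually_atTop.1 hC0
  have hmed : ∀ v : ℤ × ℤ, ∃ c : ℝ, 132 ≤ dd 0 v →
      3 * ((dd 0 v / 66 : ℕ) : ℝ) ≤ c ∧ c ≤ 3 * (dd 0 v : ℝ) ∧
      nu.real {w | TT (pw w) 0 v < c} ≤ 1 / 2 ∧ nu.real {w | c < TT (pw w) 0 v} ≤ 1 / 2 := by
    intro v
    by_cases h : 132 ≤ dd 0 v
    · obtain ⟨c, hc⟩ := hMED v h
      exact ⟨c, fun _ => hc⟩
    · exact ⟨0, fun h' => absurd h' h⟩
  choose m hm using hmed
  obtain ⟨C2, hC2, h2⟩ := half_poly _ hq
  obtain ⟨C3, hC3, h3⟩ := small (b + z) (2 * (1 - b) - ζ) (by linarith) hq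
  set K : ℝ := 50 ^ (2 * (1 - b) - z) with hK
  have hK0 : 0 < K := by positivity
  have hfin := of_ev (P := fun v => nu.real {w | (dd 0 v : ℝ) ^ (b + ζ) < |TT (pw w) 0 v - m v|})
    (fun v => measureReal_le_one) hq (C := 532 * (|C0| * K + C3) + 36 * C2) (by positivity) (by
    have e1 : Tendsto (fun n : ℕ => (n : ℝ) ^ (ζ - z)) atTop atTop :=
      (tendsto_rpow_atTop (by linarith)).comp tendsto_natCast_atTop_atTop
    have e2 : Tendsto (fun n : ℕ => (n : ℝ) ^ (1 - (b + z))) atTop atTop :=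
      (tendsto_rpow_atTop (by linarith)).comp tendsto_natCast_atTop_atTop
    filter_upwards [e1.eventually_ge_atTop 2010, e2.eventually_ge_atTop 201000,
      eventually_ge_atTop 300, tendsto_natCast_atTop_atTop.eventually_ge_atTop (50 * t0)]
      with n hn1 hn2 hn3 hn4 v hv
    have hn : (300 : ℝ) ≤ n := by exact_mod_cast hn3
    have hn0 : (0 : ℝ) < n := by linarith
    have hv0 : v ≠ 0 := by
      rintro rfl
      rw [show dd 0 0 = 0 by simp [dd]] at hv
      omega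
    obtain ⟨c1, c2, c3, c4⟩ := hm v (by omega)
    set c : ℝ := m v with hc
    set R : ℕ := ⌈(4 * (n : ℝ)) ^ (b + z)⌉₊ with hR
    have hpos : 0 < (4 * (n : ℝ)) ^ (b + z) := by positivity
    have hR0 : 0 < R := Nat.ceil_pos.2 hpos
    have hR1 : (4 * (n : ℝ)) ^ (b + z) ≤ R := Nat.le_ceil _
    have hnb : 1 ≤ (n : ℝ) ^ (b + z) := Real.one_le_rpow (by linarith) (by linarith)
    have hR2 : (R : ℝ) ≤ 5 * (n : ℝ) ^ (b + z) := by
      have h4 := (Nat.ceil_lt_add_one hpos.le).le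
      rw [← hR] at h4
      have h5 : (4 * (n : ℝ)) ^ (b + z) ≤ 4 * (n : ℝ) ^ (b + z) := by
        rw [Real.mul_rpow (by norm_num) hn0.le]
        refine mul_le_mul_of_nonneg_right ?_ (by positivity)
        calc (4 : ℝ) ^ (b + z) ≤ 4 ^ (1 : ℝ) :=
              Real.rpow_le_rpow_of_exponent_le (by norm_num) (by linarith)
          _ = 4 := Real.rpow_one 4
      linarith
    have hR3 : (n : ℝ) ^ (b + z) ≤ R :=
      le_trans (Real.rpow_le_rpow hn0.le (by linarith) (by linarith)) hR1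
    have h402 : 402 * (R : ℝ) ≤ (n : ℝ) ^ (b + ζ) := by
      have e : (n : ℝ) ^ (b + ζ) = (n : ℝ) ^ (ζ - z) * (n : ℝ) ^ (b + z) := by
        rw [← Real.rpow_add hn0]
        congr 1
        ring
      rw [e]
      nlinarith
    have h402' : 402 * (R : ℝ) ≤ n / 100 := by
      have e : (n : ℝ) = (n : ℝ) ^ (1 - (b + z)) * (n : ℝ) ^ (b + z) := by
        rw [← Real.rpow_add hn0]
        simp
      have h5 : 201000 * (n : ℝ) ^ (b + z) ≤ n := by
        calc 201000 * (n : ℝ) ^ (b + z) ≤ (n : ℝ) ^ (1 - (b + z)) * (n : ℝ) ^ (b + z) :=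
              mul_le_mul_of_nonneg_right hn2 (by positivity)
          _ = n := e.symm
      linarith
    have c1' : (n : ℝ) / 22 - 3 ≤ c := by
      have h5 : (n : ℝ) / 66 - 1 ≤ ((n / 66 : ℕ) : ℝ) := by
        have h6 : n < 66 * (n / 66 + 1) := by omega
        have h7 : (n : ℝ) < 66 * (((n / 66 : ℕ) : ℝ) + 1) := by exact_mod_cast h6
        linarith
      rw [hv] at c1
      linarith
    rw [hv] at c2
    have key := tails hSETC hONE hv0 (c := c) (ρ := |C0| * K * (n : ℝ) ^ (-(2 * (1 - b) - ζ)))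
      (δ := |C0| * K * (n : ℝ) ^ (-(2 * (1 - b) - ζ)) + C3 * (n : ℝ) ^ (-(2 * (1 - b) - ζ)))
      (R := R) hR0 (fun t ht1 ht2 => by
        have t1 : (n : ℝ) / 50 ≤ t := by linarith
        have t2 : t ≤ 4 * n := by linarith
        have tp : 0 < t := by linarith
        refine ⟨t ^ (b + z), le_trans (Real.rpow_le_rpow tp.le t2 (by linarith)) hR1, ?_⟩
        have t3 := ht0 t (by linarith)
        refine t3.trans ?_
        have t4 : t ^ (-(2 * (1 - b)) + z) ≤ K * (n : ℝ) ^ (-(2 * (1 - b) - ζ)) := by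
          calc t ^ (-(2 * (1 - b)) + z) ≤ ((n : ℝ) / 50) ^ (-(2 * (1 - b)) + z) :=
                Real.rpow_le_rpow_of_nonpos (by positivity) t1 (by linarith)
            _ = K * (n : ℝ) ^ (-(2 * (1 - b)) + z) := by
                rw [Real.div_rpow hn0.le (by norm_num), hK,
                  show -(2 * (1 - b)) + z = -(2 * (1 - b) - z) by ring,
                  Real.rpow_neg (by norm_num : (0:ℝ) ≤ 50), div_inv_eq_mul, mul_comm]
            _ ≤ _ := by
                refine mul_le_mul_of_nonneg_left ?_ hK0.le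
                exact Real.rpow_le_rpow_of_exponent_le (by linarith) (by linarith)
        calc C0 * t ^ (-(2 * (1 - b)) + z) ≤ |C0| * (K * (n : ℝ) ^ (-(2 * (1 - b) - ζ))) :=
              mul_le_mul (le_abs_self _) t4 (by positivity) (abs_nonneg _)
          _ = _ := by ring)
      (by
        have := h3 n R (by omega) hR3
        linarith) c3 c4
    have h10 : (1 / 2 : ℝ) ^ n ≤ C2 * (n : ℝ) ^ (-(2 * (1 - b) - ζ)) := by
      refine (h2 n).trans (mul_le_mul_of_nonneg_left ?_ hC2.le)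
      exact Real.rpow_le_rpow_of_nonpos hn0 (by linarith) (by linarith)
    rw [hv] at key ⊢
    have h11 : nu.real {w | (n : ℝ) ^ (b + ζ) < |TT (pw w) 0 v - c|} ≤
        nu.real {w | 402 * (R : ℝ) < |TT (pw w) 0 v - c|} :=
      measureReal_mono fun w hw => lt_of_le_of_lt h402 hw
    refine h11.trans (key.trans ?_)
    set N : ℝ := (n : ℝ) ^ (-(2 * (1 - b) - ζ)) with hN
    nlinarith)
  obtain ⟨C', -, hC'⟩ := hfin
  refine ⟨m, C', fun v hv => ?_⟩
  have h := hC' v hv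
  rw [show -(2 * (1 - b)) + ζ = -(2 * (1 - b) - ζ) by ring]
  exact h

end Pool.Agent.H50.SY
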